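import Pool.Agent.Helper91.PL.Defs2

/-!
# MP_bae8ce_ag, module A2 : values and specialisation of symbols
-/

set_option autoImplicit false

open Finset

namespace PL

noncomputable section

universe u

variable {F : Type u} [Field F] {G : Type u} [Field G]

/-- If `f = P / Q` then `num f * Q = P * denom f`. -/
private theorem a2_cross {f : RatFunc F} {P Q : Polynomial F} (hQ : Q ≠ 0)
    (h : f * algebraMap (Polynomial F) (RatFunc F) Q = algebraMap (Polynomial F) (RatFunc F) P) :
    f.num * Q = P * f.denom := by
  rw [RatFunc.num_mul_eq_mul_denom_iff hQ, eq_div_iff]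
  · exact h
  · exact (map_ne_zero_iff _ (RatFunc.algebraMap_injective F)).2 hQ

/-- The value of `P / Q` at a point with `Q a ≠ 0`. -/
theorem a2_some {a : F} {f : RatFunc F} {P Q : Polynomial F}
    (h : f * algebraMap (Polynomial F) (RatFunc F) Q = algebraMap (Polynomial F) (RatFunc F) P)
    (hQ : Q.eval a ≠ 0) : val a (some f) = some (P.eval a / Q.eval a) := by
  have hQ0 : Q ≠ 0 := by
    rintro rfl
    simp at hQ
  have hc := congrArg (Polynomial.eval a) (a2_cross hQ0 h)
  rw [Polynomial.eval_mul, Polynomial.eval_mul] at hc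
  have hd : f.denom.eval a ≠ 0 := by
    intro h0
    rw [h0, mul_zero] at hc
    have hn : f.num.eval a = 0 := (mul_eq_zero.1 hc).resolve_right hQ
    obtain ⟨u, v, huv⟩ := RatFunc.isCoprime_num_denom f
    have := congrArg (Polynomial.eval a) huv
    simp [h0, hn] at this
  simp only [val]
  rw [if_neg hd]
  congr 1
  rw [div_eq_div_iff hd hQ]
  exact hc

/-- The value of `P / Q` at a point with `Q a = 0`, `P a ≠ 0`. -/
theorem a2_none {a : F} {f : RatFunc F} {P Q : Polynomial F} (hQ0 : Q ≠ 0)
    (h : f * algebraMap (Polynomial F) (RatFunc F) Q = algebraMap (Polynomial F) (RatFunc F) P)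
    (hQ : Q.eval a = 0) (hP : P.eval a ≠ 0) : val a (some f) = none := by
  have hc := congrArg (Polynomial.eval a) (a2_cross hQ0 h)
  rw [Polynomial.eval_mul, Polynomial.eval_mul, hQ, mul_zero] at hc
  have hd : f.denom.eval a = 0 := (mul_eq_zero.1 hc.symm).resolve_left hP
  simp only [val]
  rw [if_pos hd]

/-- `f * denom f = num f`. -/
private theorem a2_mul_denom (f : RatFunc F) :
    f * algebraMap (Polynomial F) (RatFunc F) f.denom =
      algebraMap (Polynomial F) (RatFunc F) f.num := by
  have h : algebraMap (Polynomial F) (RatFunc F) f.denom ≠ 0 :=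
    (map_ne_zero_iff _ (RatFunc.algebraMap_injective F)).2 f.denom_ne_zero
  exact (div_eq_iff h).1 (RatFunc.num_div_denom f) |>.symm

/-- A finite value comes from a fraction. -/
theorem a2_of_some {a x : F} {f : RatFunc F} (h : val a (some f) = some x) :
    ∃ P Q : Polynomial F, f * algebraMap (Polynomial F) (RatFunc F) Q =
      algebraMap (Polynomial F) (RatFunc F) P ∧ Q.eval a ≠ 0 ∧ x = P.eval a / Q.eval a := by
  simp only [val] at h
  by_cases hd : f.denom.eval a = 0
  · rw [if_pos hd] at h
    exact absurd h (by simp)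
  · rw [if_neg hd] at h
    exact ⟨f.num, f.denom, a2_mul_denom f, hd, (Option.some.inj h).symm⟩

/-- An infinite value comes from a fraction. -/
theorem a2_of_none {a : F} {f : RatFunc F} (h : val a (some f) = none) :
    ∃ P Q : Polynomial F, Q ≠ 0 ∧ f * algebraMap (Polynomial F) (RatFunc F) Q =
      algebraMap (Polynomial F) (RatFunc F) P ∧ Q.eval a = 0 ∧ P.eval a ≠ 0 := by
  simp only [val] at h
  by_cases hd : f.denom.eval a = 0
  · refine ⟨f.num, f.denom, f.denom_ne_zero, a2_mul_denom f, hd, ?_⟩
    intro hn
    obtain ⟨u, v, huv⟩ := RatFunc.isCoprime_num_denom f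
    have := congrArg (Polynomial.eval a) huv
    simp [hd, hn] at this
  · rw [if_neg hd] at h
    exact absurd h (by simp)

/-- The inverse of a fraction. -/
private theorem a2_inv {f : RatFunc F} (hf : f ≠ 0) {P Q : Polynomial F}
    (h : f * algebraMap (Polynomial F) (RatFunc F) Q = algebraMap (Polynomial F) (RatFunc F) P) :
    f⁻¹ * algebraMap (Polynomial F) (RatFunc F) P =
      algebraMap (Polynomial F) (RatFunc F) Q := by
  rw [← h, ← mul_assoc, inv_mul_cancel₀ hf, one_mul]

theorem val_C (a x : F) : val a (some (RatFunc.C x)) = some x := by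
  have := a2_some (a := a) (f := RatFunc.C x) (P := Polynomial.C x) (Q := 1)
    (by rw [map_one, mul_one, RatFunc.algebraMap_C]) (by simp)
  simpa using this

theorem val_X (a : F) : val a (some (RatFunc.X : RatFunc F)) = some a := by
  have := a2_some (a := a) (f := RatFunc.X) (P := Polynomial.X) (Q := 1)
    (by rw [map_one, mul_one, RatFunc.algebraMap_X]) (by simp)
  simpa using this

theorem val_add {a : F} {f g : RatFunc F} {x y : F} (hf : val a (some f) = some x)
    (hg : val a (some g) = some y) : val a (some (f + g)) = some (x + y) := by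
  obtain ⟨P, Q, h1, h2, rfl⟩ := a2_of_some hf
  obtain ⟨P', Q', h1', h2', rfl⟩ := a2_of_some hg
  rw [a2_some (P := P * Q' + P' * Q) (Q := Q * Q')]
  · congr 1
    rw [Polynomial.eval_add, Polynomial.eval_mul, Polynomial.eval_mul, Polynomial.eval_mul]
    field_simp
  · rw [map_add, map_mul, map_mul, map_mul, ← h1, ← h1']
    ring
  · rw [Polynomial.eval_mul]
    exact mul_ne_zero h2 h2'

theorem val_mul {a : F} {f g : RatFunc F} {x y : F} (hf : val a (some f) = some x)
    (hg : val a (some g) = some y) : val a (some (f * g)) = some (x * y) := by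
  obtain ⟨P, Q, h1, h2, rfl⟩ := a2_of_some hf
  obtain ⟨P', Q', h1', h2', rfl⟩ := a2_of_some hg
  rw [a2_some (P := P * P') (Q := Q * Q')]
  · congr 1
    rw [Polynomial.eval_mul, Polynomial.eval_mul, div_mul_div_comm]
  · rw [map_mul, map_mul, ← h1, ← h1']
    ring
  · rw [Polynomial.eval_mul]
    exact mul_ne_zero h2 h2'

theorem val_inv {a : F} {f : RatFunc F} {x : F} (hf : val a (some f) = some x) (hx : x ≠ 0) :
    val a (some f⁻¹) = some x⁻¹ := by
  obtain ⟨P, Q, h1, h2, rfl⟩ := a2_of_some hf
  have hP : P.eval a ≠ 0 := by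
    intro h
    apply hx
    rw [h, zero_div]
  have hf0 : f ≠ 0 := by
    rintro rfl
    rw [zero_mul] at h1
    have : P = 0 := by
      have := h1.symm
      rwa [map_eq_zero_iff _ (RatFunc.algebraMap_injective F)] at this
    rw [this] at hP
    simp at hP
  rw [a2_some (a2_inv hf0 h1) hP, inv_div]

/-- At a pole the inverse has value `0`. -/
theorem val_pole {a : F} {f : RatFunc F} (hf : val a (some f) = none) :
    val a (some f⁻¹) = some 0 := by
  obtain ⟨P, Q, hQ, h1, h2, h3⟩ := a2_of_none hf
  have hf0 : f ≠ 0 := by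
    rintro rfl
    rw [zero_mul] at h1
    have : P = 0 := by
      have := h1.symm
      rwa [map_eq_zero_iff _ (RatFunc.algebraMap_injective F)] at this
    rw [this] at h3
    simp at h3
  rw [a2_some (a2_inv hf0 h1) h3, h2, zero_div]

/-- If the inverse has value `0` and `f ≠ 0` then `f` has a pole. -/
theorem val_eq_none {a : F} {f : RatFunc F} (hf0 : f ≠ 0) (hf : val a (some f⁻¹) = some 0) :
    val a (some f) = none := by
  obtain ⟨P, Q, h1, h2, h3⟩ := a2_of_some hf
  have hP : P.eval a = 0 := by
    rcases div_eq_zero_iff.1 h3.symm with h | h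
    · exact h
    · exact absurd h h2
  have h4 := a2_inv (inv_ne_zero hf0) h1
  rw [inv_inv] at h4
  refine a2_none ?_ h4 hP h2
  rintro rfl
  rw [map_zero, mul_eq_zero] at h1
  rcases h1 with h | h
  · exact (inv_ne_zero hf0) h
  · rw [map_eq_zero_iff _ (RatFunc.algebraMap_injective F)] at h
    rw [h] at h2
    simp at h2

end

end PL
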