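import Pool.Agent.Helper91.PL.Defs2

/-!
# MP_bae8ce_ag, module E1 : exactness by duality
-/

set_option autoImplicit false

open Finset

namespace PL

noncomputable section

universe u

/-- Functionals separate a vector from a subspace. -/
private theorem e1_sep {A : Type u} [AddCommGroup A] [Module ℚ A] (S : Submodule ℚ A) {x : A}
    (hx : x ∉ S) : ∃ l : A →ₗ[ℚ] ℚ, l x ≠ 0 ∧ S ≤ LinearMap.ker l :=
  Submodule.exists_le_ker_of_notMem hx

theorem inj_of_dual {A C : Type u} [AddCommGroup A] [Module ℚ A] [AddCommGroup C] [Module ℚ C]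
    (g : A →ₗ[ℚ] C) (h : ∀ l : A →ₗ[ℚ] ℚ, ∃ l' : C →ₗ[ℚ] ℚ, l = l' ∘ₗ g) :
    Function.Injective g := by
  rw [injective_iff_map_eq_zero]
  intro a ha
  by_contra hne
  obtain ⟨l, hl, -⟩ := e1_sep (⊥ : Submodule ℚ A) (x := a) (by simpa using hne)
  obtain ⟨l', rfl⟩ := h l
  apply hl
  simp [ha]

theorem exact_of_dual {A B' C : Type u} [AddCommGroup A] [Module ℚ A] [AddCommGroup B']
    [Module ℚ B'] [AddCommGroup C] [Module ℚ C] (f : A →ₗ[ℚ] B') (g : B' →ₗ[ℚ] C)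
    (h0 : g ∘ₗ f = 0) (h : ∀ l : B' →ₗ[ℚ] ℚ, l ∘ₗ f = 0 → ∃ l' : C →ₗ[ℚ] ℚ, l = l' ∘ₗ g) :
    Function.Exact f g := by
  intro b
  constructor
  · intro hb
    by_contra hne
    obtain ⟨l, hl, hS⟩ := e1_sep (LinearMap.range f) (x := b) (by simpa using hne)
    have h1 : l ∘ₗ f = 0 := by
      ext a
      have : f a ∈ LinearMap.ker l := hS ⟨a, rfl⟩
      simpa using this
    obtain ⟨l', rfl⟩ := h l h1
    apply hl
    simp [hb]
  · rintro ⟨a, rfl⟩
    exact LinearMap.congr_fun h0 a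

theorem surj_of_dual {A C : Type u} [AddCommGroup A] [Module ℚ A] [AddCommGroup C] [Module ℚ C]
    (g : A →ₗ[ℚ] C) (h : ∀ l : C →ₗ[ℚ] ℚ, l ∘ₗ g = 0 → l = 0) : Function.Surjective g := by
  intro c
  by_contra hne
  obtain ⟨l, hl, hS⟩ := e1_sep (LinearMap.range g) (x := c) (by simpa using hne)
  have h1 : l ∘ₗ g = 0 := by
    ext a
    have : g a ∈ LinearMap.ker l := hS ⟨a, rfl⟩
    simpa using this
  apply hl
  rw [h l h1]
  simp

end

end PL
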