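import Pool.Agent.Helper93.PL.St

/-!
# Project PL (MP_d466de_nt), module Bof: Bonferroni identity for binomials
-/

set_option autoImplicit false

namespace Pool.Agent.Helper28.PL

open Finset

private theorem cmul (j i n : ℕ) :
    ((j + i).choose j : ℝ) * ((j + n).choose (j + i) : ℝ) = ((j + n).choose j : ℝ) * (n.choose i : ℝ) := by
  by_cases h : i ≤ n
  · have h1 : (j + n).choose (j + i) * (j + i).choose j = (j + n).choose j * (j + n - j).choose (j + i - j) :=
      Nat.choose_mul (by omega)
    rw [Nat.add_sub_cancel_left, Nat.add_sub_cancel_left] at h1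
    rw [mul_comm]
    exact_mod_cast h1
  · push Not at h
    rw [Nat.choose_eq_zero_of_lt (show j + n < j + i by omega), Nat.choose_eq_zero_of_lt h]
    simp

private theorem alt (n r : ℕ) :
    ∑ i ∈ range (r + 1), (-1 : ℝ) ^ i * ((n + 1).choose i : ℝ) = (-1) ^ r * (n.choose r : ℝ) := by
  induction r with
  | zero => simp
  | succ r ih =>
    rw [sum_range_succ, ih, Nat.choose_succ_succ n r]
    push_cast
    ring

/-- MODULE Bof. -/
theorem hBof : Pool.Agent.Helper93.PL.StBof := by
  intro j r N
  by_cases hN : j ≤ N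
  · obtain ⟨n, rfl⟩ := Nat.exists_eq_add_of_le hN
    have h1 : ∑ i ∈ range (r + 1), (-1 : ℝ) ^ i * (j + i).choose j * (j + n).choose (j + i)
        = ((j + n).choose j : ℝ) * ∑ i ∈ range (r + 1), (-1 : ℝ) ^ i * (n.choose i : ℝ) := by
      rw [mul_sum]
      refine sum_congr rfl (fun i _ => ?_)
      rw [mul_assoc, cmul]
      ring
    rw [h1]
    have h2 : ((j + r + 1).choose j : ℝ) * (j + n).choose (j + r + 1)
        = ((j + n).choose j : ℝ) * (n.choose (r + 1) : ℝ) := cmul j (r + 1) n
    rw [h2]
    rcases n with _ | n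
    · have h3 : ∑ i ∈ range (r + 1), (-1 : ℝ) ^ i * ((0 : ℕ).choose i : ℝ) = 1 := by
        rw [sum_range_succ']
        simp
      rw [h3]
      simp
    · rw [alt, if_neg (by omega), zero_sub, abs_neg, abs_mul, abs_mul, abs_pow, abs_neg, abs_one, one_pow,
        one_mul, Nat.abs_cast, Nat.abs_cast]
      refine mul_le_mul_of_nonneg_left ?_ (Nat.cast_nonneg _)
      rw [Nat.choose_succ_succ n r]
      push_cast
      have := Nat.cast_nonneg (α := ℝ) (n.choose (r + 1))
      linarith
  · push Not at hN
    have h1 : ∑ i ∈ range (r + 1), (-1 : ℝ) ^ i * (j + i).choose j * N.choose (j + i) = 0 := by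
      refine sum_eq_zero (fun i _ => ?_)
      rw [Nat.choose_eq_zero_of_lt (show N < j + i by omega)]
      simp
    rw [h1, if_neg (by omega)]
    simp only [sub_self, abs_zero]
    positivity

end Pool.Agent.Helper28.PL
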